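import Pool.Agent.Helper8.UL.Base2

/-!
# UL2, part DUAL: mirror image and time reversal
-/

set_option autoImplicit false

open Set

namespace Helper85.UL2.DUAL

open Pool.UL

/-! ### mirror -/

def mE : Ev → Ev
  | Ev.swap A B => Ev.swap B.reverse A.reverse
  | Ev.vert v I O => Ev.vert v I.reverse O.reverse

theorem run_mirror {L L' : List (ℕ × ℕ)} {es : List Ev} (h : Run L es L') :
    Run L.reverse (es.map mE) L'.reverse := by
  induction h with
  | nil L => exact Run.nil _
  | swap P A B S h ih =>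
    refine Run.cast (Run.swap S.reverse B.reverse A.reverse P.reverse (ih.cast ?_ rfl)) ?_ rfl
    · simp
    · simp
  | vert P I v O S h ih =>
    refine Run.cast (Run.vert S.reverse I.reverse v O.reverse P.reverse (ih.cast ?_ rfl)) ?_ rfl
    · simp
    · simp

theorem crE_mirror (x : ℕ × ℕ) (ev : Ev) : crE x (mE ev) = crE x ev := by
  cases ev with
  | swap A B => simp only [mE, crE, List.count_reverse, List.length_reverse]; ring
  | vert v I O => rfl

theorem cr_mirror (x : ℕ × ℕ) (es : List Ev) : cr x (es.map mE) = cr x es := by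
  unfold cr
  rw [List.map_map]
  congr 1
  apply List.map_congr_left
  intro ev _
  exact crE_mirror x ev

theorem vE_mirror (ev : Ev) : vE (mE ev) = vE ev := by cases ev <;> rfl

theorem vs_mirror (es : List Ev) : vs (es.map mE) = vs es := by
  unfold vs
  rw [List.flatMap_map]
  congr 1
  funext ev
  exact vE_mirror ev

theorem enum_reverse {L : List (ℕ × ℕ)} {S : Set (ℕ × ℕ)} (h : Enum L S) : Enum L.reverse S :=
  ⟨List.nodup_reverse.2 h.1, fun e => List.mem_reverse.trans (h.2 e)⟩

theorem oke_mirror {E : ℕ → ℕ → Prop} {ev : Ev} (h : OKE E ev) : OKE E (mE ev) := by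
  cases ev with
  | swap A B => trivial
  | vert v I O => exact ⟨enum_reverse h.1, enum_reverse h.2⟩

theorem fine_mirror {E : ℕ → ℕ → Prop} {H : Set ℕ} {es : List Ev} (h : Fine E H es) :
    Fine E H (es.map mE) := by
  refine ⟨?_, ?_, ?_⟩
  · intro ev hev
    rw [List.mem_map] at hev
    obtain ⟨ev', h1, rfl⟩ := hev
    exact oke_mirror (h.1 ev' h1)
  · rw [vs_mirror]; exact h.2.1
  · intro v
    rw [vs_mirror]; exact h.2.2 v

/-! ### time reversal -/

def sw (L : List (ℕ × ℕ)) : List (ℕ × ℕ) := L.map Prod.swap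

theorem sw_append (L L' : List (ℕ × ℕ)) : sw (L ++ L') = sw L ++ sw L' := List.map_append

theorem sw_length (L : List (ℕ × ℕ)) : (sw L).length = L.length := List.length_map _

theorem sw_sw (L : List (ℕ × ℕ)) : sw (sw L) = L := by
  unfold sw
  rw [List.map_map]
  simp

theorem sw_count (L : List (ℕ × ℕ)) (x : ℕ × ℕ) : (sw L).count x = L.count x.swap := by
  have := List.count_map_of_injective L Prod.swap Prod.swap_injective x.swap
  rw [Prod.swap_swap] at this
  exact this

theorem mem_sw {L : List (ℕ × ℕ)} {x : ℕ × ℕ} : x ∈ sw L ↔ x.swap ∈ L := by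
  unfold sw
  rw [List.mem_map]
  constructor
  · rintro ⟨y, hy, rfl⟩
    simpa using hy
  · intro h
    exact ⟨x.swap, h, Prod.swap_swap x⟩

def tE : Ev → Ev
  | Ev.swap A B => Ev.swap (sw B) (sw A)
  | Ev.vert v I O => Ev.vert v (sw O) (sw I)

theorem run_rev {L L' : List (ℕ × ℕ)} {es : List Ev} (h : Run L es L') :
    Run (sw L') (es.map tE).reverse (sw L) := by
  induction h with
  | nil L => exact Run.nil _
  | swap P A B S h ih =>
    rw [List.map_cons, List.reverse_cons]
    refine Run.append ih (Run.cast (Run.swap1 (sw P) (sw B) (sw A) (sw S)) ?_ ?_)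
    · simp [sw_append]
    · simp [sw_append]
  | vert P I v O S h ih =>
    rw [List.map_cons, List.reverse_cons]
    refine Run.append ih (Run.cast (Run.vert1 (sw P) (sw O) v (sw I) (sw S)) ?_ ?_)
    · simp [sw_append]
    · simp [sw_append]

theorem crE_rev (x : ℕ × ℕ) (ev : Ev) : crE x (tE ev) = crE x.swap ev := by
  cases ev with
  | swap A B => simp only [tE, crE, sw_count, sw_length]; ring
  | vert v I O => rfl

theorem cr_rev (x : ℕ × ℕ) (es : List Ev) : cr x (es.map tE).reverse = cr x.swap es := by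
  rw [cr_perm (List.reverse_perm _) x]
  unfold cr
  rw [List.map_map]
  congr 1
  apply List.map_congr_left
  intro ev _
  exact crE_rev x ev

theorem vs_tE (es : List Ev) : vs (es.map tE) = vs es := by
  unfold vs
  rw [List.flatMap_map]
  congr 1
  funext ev
  cases ev <;> rfl

theorem inn_rev {E : ℕ → ℕ → Prop} {H : Set ℕ} {v : ℕ} {L : List (ℕ × ℕ)} (h : Inn E H v L) :
    Out (revE E) v H (sw L) := by
  refine ⟨(List.nodup_map_iff Prod.swap_injective).2 h.1, fun x => ?_⟩
  rw [mem_sw, h.mem]
  show _ ↔ x.1 = v ∧ x.2 ∈ H ∧ E x.2 x.1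
  simp only [Prod.fst_swap, Prod.snd_swap]
  tauto

theorem out_rev {E : ℕ → ℕ → Prop} {H : Set ℕ} {v : ℕ} {L : List (ℕ × ℕ)} (h : Out E v H L) :
    Inn (revE E) H v (sw L) := by
  refine ⟨(List.nodup_map_iff Prod.swap_injective).2 h.1, fun x => ?_⟩
  rw [mem_sw, h.mem]
  show _ ↔ x.1 ∈ H ∧ x.2 = v ∧ E x.2 x.1
  simp only [Prod.fst_swap, Prod.snd_swap]
  tauto

theorem oke_rev {E : ℕ → ℕ → Prop} {ev : Ev} (h : OKE E ev) : OKE (revE E) (tE ev) := by
  cases ev with
  | swap A B => trivial
  | vert v I O =>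
    refine ⟨⟨(List.nodup_map_iff Prod.swap_injective).2 h.2.1, fun x => ?_⟩,
      ⟨(List.nodup_map_iff Prod.swap_injective).2 h.1.1, fun x => ?_⟩⟩
    · show x ∈ sw O ↔ x.2 = v ∧ E v x.1
      rw [mem_sw, h.2.2]
      show x.swap.1 = v ∧ E v x.swap.2 ↔ _
      simp only [Prod.fst_swap, Prod.snd_swap]
    · show x ∈ sw I ↔ x.1 = v ∧ E x.2 v
      rw [mem_sw, h.1.2]
      show x.swap.2 = v ∧ E x.swap.1 v ↔ _
      simp only [Prod.fst_swap, Prod.snd_swap]

theorem fine_rev {E : ℕ → ℕ → Prop} {H : Set ℕ} {es : List Ev} (h : Fine E H es) :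
    Fine (revE E) H (es.map tE).reverse := by
  have h1 : Fine (revE E) H (es.map tE) := by
    refine ⟨?_, ?_, ?_⟩
    · intro ev hev
      rw [List.mem_map] at hev
      obtain ⟨ev', h1, rfl⟩ := hev
      exact oke_rev (h.1 ev' h1)
    · rw [vs_tE]; exact h.2.1
    · intro v
      rw [vs_tE]; exact h.2.2 v
  exact h1.perm (List.reverse_perm _).symm

/-! ### reverse of edge lists -/

theorem inn_reverse {E : ℕ → ℕ → Prop} {H : Set ℕ} {v : ℕ} {L : List (ℕ × ℕ)} (h : Inn E H v L) :
    Inn E H v L.reverse := enum_reverse h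

theorem out_reverse {E : ℕ → ℕ → Prop} {H : Set ℕ} {v : ℕ} {L : List (ℕ × ℕ)} (h : Out E v H L) :
    Out E v H L.reverse := enum_reverse h

/-! ### both -/

def Rv (L : List (ℕ × ℕ)) : List (ℕ × ℕ) := (sw L).reverse

def De (es : List Ev) : List Ev := ((es.map tE).reverse).map mE

theorem De_append (es es' : List Ev) : De (es ++ es') = De es' ++ De es := by
  simp [De]

theorem run_both {L L' : List (ℕ × ℕ)} {es : List Ev} (h : Run L es L') :
    Run (Rv L') (De es) (Rv L) := run_mirror (run_rev h)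

theorem Rv_append (L L' : List (ℕ × ℕ)) : Rv (L ++ L') = Rv L' ++ Rv L := by
  simp [Rv, sw_append]

theorem Rv_Rv (L : List (ℕ × ℕ)) : Rv (Rv L) = L := by
  unfold Rv
  have : sw (sw L).reverse = (sw (sw L)).reverse := by
    unfold sw
    rw [List.map_reverse]
  rw [this, sw_sw, List.reverse_reverse]

theorem Rv_length (L : List (ℕ × ℕ)) : (Rv L).length = L.length := by
  unfold Rv; rw [List.length_reverse, sw_length]

theorem Rv_count (L : List (ℕ × ℕ)) (x : ℕ × ℕ) : (Rv L).count x = L.count x.swap := by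
  unfold Rv; rw [List.count_reverse, sw_count]

theorem cr_both (x : ℕ × ℕ) (es : List Ev) : cr x (De es) = cr x.swap es := by
  unfold De
  rw [cr_mirror, cr_rev]

theorem main : S_DUAL := by
  refine ⟨?_, ?_, ?_⟩
  · rintro E p q H κ ⟨W, bq, bp, tp, tq, el, eh, r1, r2, i1, i2, o1, o2, hf, hc⟩
    refine ⟨W.reverse, bq.reverse, bp.reverse, tp.reverse, tq.reverse, el.map mE, eh.map mE,
      ?_, ?_, inn_reverse i1, inn_reverse i2, out_reverse o1, out_reverse o2, ?_, ?_⟩
    · exact (run_mirror r1).cast rfl (by simp)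
    · exact (run_mirror r2).cast (by simp) rfl
    · rw [← List.map_append]
      exact fine_mirror hf
    · intro x
      rw [← List.map_append, cr_mirror]
      exact hc x
  · rintro E p q H κ ⟨W, bq, bp, tp, tq, el, eh, r1, r2, i1, i2, o1, o2, hf, hc⟩
    refine ⟨sw W, sw tp, sw tq, sw bq, sw bp, (eh.map tE).reverse, (el.map tE).reverse,
      ?_, ?_, out_rev o2, out_rev o1, inn_rev i2, inn_rev i1, ?_, ?_⟩
    · exact (run_rev r2).cast rfl (by simp [sw_append])
    · exact (run_rev r1).cast (by simp [sw_append]) rfl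
    · rw [← List.reverse_append, ← List.map_append]
      exact fine_rev hf
    · intro x
      rw [← List.reverse_append, ← List.map_append, cr_rev]
      exact hc x.swap
  · rintro E Δ p q H X X' κ ⟨U, a, c, d, e, V, el, eh, r1, r2, i1, o1, i2, o2, hmid⟩
    refine ⟨Rv V, Rv e, Rv d, Rv c, Rv a, Rv U, De eh, De el, ?_, ?_,
      inn_reverse (out_rev o2), out_reverse (inn_rev i2), inn_reverse (out_rev o1),
      out_reverse (inn_rev i1), ?_⟩
    · exact (run_both r2).cast rfl (by simp [Rv_append])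
    · exact (run_both r1).cast (by simp [Rv_append]) rfl
    · intro θ θ' h1 h2
      rw [Rv_length] at h1 h2
      obtain ⟨em, h3, h4, h5⟩ := hmid (Rv θ') (Rv θ) (by rw [Rv_length]; exact h2)
        (by rw [Rv_length]; exact h1)
      have e1 : De eh ++ De em ++ De el = De (el ++ em ++ eh) := by
        rw [De_append, De_append, List.append_assoc]
      refine ⟨De em, ?_, ?_, ?_⟩
      · refine (run_both h3).cast ?_ ?_
        · simp [Rv_append, Rv_Rv]
        · simp [Rv_append, Rv_Rv]
      · rw [e1]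
        exact fine_mirror (fine_rev h4)
      · intro x
        rw [e1, cr_both]
        have := h5 x.swap
        rw [Rv_count, Rv_count, Prod.swap_swap] at this
        show cr x.swap (el ++ em ++ eh) ≤ κ x.swap + X' * θ.count x + X * θ'.count x
        omega

end Helper85.UL2.DUAL
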